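import Pool.Agent.K1H14.SE.Stm

set_option autoImplicit false

/-! Project SE: `S_VEC2` (by the Casimir operator). -/

namespace Pool.Agent.K1H69.SE

open Pool.Agent.K1H14.SD Pool.Agent.K1H14.SE

open scoped symmDiff

universe u

variable {C : Type u} [Ring C] [Algebra ℂ C] {d : ℕ} {M : Finset (Fin d) → C} {st : C →ₗ[ℂ] C}
  {tr : C →ₗ[ℂ] ℂ}

/-- the coefficient of a monomial -/
noncomputable def cf (M : Finset (Fin d) → C) (st : C →ₗ[ℂ] C) (tr : C →ₗ[ℂ] ℂ)
    (K : Finset (Fin d)) : C →ₗ[ℂ] ℂ := tr ∘ₗ LinearMap.mulLeft ℂ (st (M K))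

theorem cf_apply (K : Finset (Fin d)) (x : C) : cf M st tr K x = tr (st (M K) * x) := rfl

theorem cf_M (h : FullCl M st) (ht : IsTrF M tr) (K K' : Finset (Fin d)) :
    cf M st tr K (M K') = if K = K' then 1 else 0 := by
  rw [cf_apply]
  by_cases hK : K = K'
  · subst hK
    rw [if_pos rfl, h.st_inv K, ← h.one, ht.1, if_pos rfl]
  · rw [if_neg hK, h.st_M]
    obtain ⟨ε, -, hε⟩ := h.mul K K'
    rw [smul_mul_assoc, hε, map_smul, map_smul, ht.1, if_neg, smul_zero, smul_zero]
    rw [← Finset.bot_eq_empty, symmDiff_eq_bot]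
    exact hK

theorem expand (h : FullCl M st) (ht : IsTrF M tr) (x : C) :
    x = ∑ K, cf M st tr K x • M K := by
  have hx := h.span x
  induction hx using Submodule.span_induction with
  | mem x hx =>
    obtain ⟨K, rfl⟩ := hx
    rw [Finset.sum_eq_single K]
    · rw [cf_M h ht, if_pos rfl, one_smul]
    · intro L _ hL
      rw [cf_M h ht, if_neg hL, zero_smul]
    · intro hK
      exact absurd (Finset.mem_univ _) hK
  | zero => simp
  | add x y _ _ hx hy =>
    simp only [map_add, add_smul, Finset.sum_add_distrib]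
    rw [← hx, ← hy]
  | smul a x _ hx =>
    simp only [map_smul, smul_eq_mul, mul_smul, ← Finset.smul_sum]
    rw [← hx]

/-- the span of the monomials of the given levels -/
def FF (M : Finset (Fin d) → C) (S : ℕ → Prop) : Submodule ℂ C :=
  Submodule.span ℂ {x | ∃ K : Finset (Fin d), S K.card ∧ x = M K}

theorem FF_M {S : ℕ → Prop} (K : Finset (Fin d)) (hK : S K.card) : M K ∈ FF M S :=
  Submodule.subset_span ⟨K, hK, rfl⟩

theorem cf_FF (h : FullCl M st) (ht : IsTrF M tr) {S : ℕ → Prop} {x : C} (hx : x ∈ FF M S)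
    (K : Finset (Fin d)) (hK : ¬ S K.card) : cf M st tr K x = 0 := by
  unfold FF at hx
  induction hx using Submodule.span_induction with
  | mem x hx =>
    obtain ⟨L, hL, rfl⟩ := hx
    rw [cf_M h ht, if_neg]
    rintro rfl
    exact hK hL
  | zero => simp
  | add x y _ _ hx hy => rw [map_add, hx, hy, add_zero]
  | smul a x _ hx => rw [map_smul, hx, smul_zero]

theorem mem_FF (h : FullCl M st) (ht : IsTrF M tr) {S : ℕ → Prop} {x : C}
    (hx : ∀ K : Finset (Fin d), ¬ S K.card → cf M st tr K x = 0) : x ∈ FF M S := by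
  have h1 := expand h ht x
  rw [h1]
  refine Submodule.sum_mem _ fun K _ => ?_
  by_cases hK : S K.card
  · exact Submodule.smul_mem _ _ (FF_M K hK)
  · rw [hx K hK, zero_smul]
    exact Submodule.zero_mem _

theorem FF_disj (h : FullCl M st) (ht : IsTrF M tr) {S S' : ℕ → Prop}
    (hSS : ∀ k, S k → S' k → False) {x : C} (hx : x ∈ FF M S) (hx' : x ∈ FF M S') : x = 0 := by
  have h1 := expand h ht x
  rw [h1]
  refine Finset.sum_eq_zero fun K _ => ?_
  by_cases hK : S K.card
  · rw [cf_FF h ht hx' K (fun h' => hSS _ hK h'), zero_smul]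
  · rw [cf_FF h ht hx K hK, zero_smul]

theorem two_st (h : FullCl M st) (L : Finset (Fin d)) (hL : L.card = 2) : st (M L) = - M L := by
  rw [h.st_M, hL]
  norm_num

theorem two_sq (h : FullCl M st) (L : Finset (Fin d)) (hL : L.card = 2) : M L * M L = -1 := by
  have h1 := h.st_inv L
  rw [two_st h L hL, neg_mul] at h1
  rw [← h1, neg_neg]

/-- the 2-sets -/
abbrev I2 (d : ℕ) : Type := {K : Finset (Fin d) // K.card = 2}

theorem expand2 (h : FullCl M st) (ht : IsTrF M tr) {x : C} (hx : x ∈ Lev M 2) :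
    x = ∑ K : I2 d, cf M st tr K.1 x • M K.1 := by
  unfold Lev at hx
  induction hx using Submodule.span_induction with
  | mem x hx =>
    obtain ⟨K, hK, rfl⟩ := hx
    rw [Finset.sum_eq_single (⟨K, hK⟩ : I2 d)]
    · rw [cf_M h ht, if_pos rfl, one_smul]
    · intro L _ hL
      rw [cf_M h ht, if_neg (fun e => hL (Subtype.ext e)), zero_smul]
    · intro hK'
      exact absurd (Finset.mem_univ _) hK'
  | zero => simp
  | add x y _ _ hx hy =>
    simp only [map_add, add_smul, Finset.sum_add_distrib]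
    rw [← hx, ← hy]
  | smul a x _ hx =>
    simp only [map_smul, smul_eq_mul, mul_smul, ← Finset.smul_sum]
    rw [← hx]

/-- the Casimir operator -/
noncomputable def SS (M : Finset (Fin d) → C) (x : C) : C := ∑ L : I2 d, M L.1 * x * M L.1

theorem SS_conj (h : FullCl M st) (ht : IsTrF M tr) (y : C) (hy : st y * y = 1)
    (hy2 : ∀ x ∈ Lev M 2, y * x * st y ∈ Lev M 2) (v : C) :
    SS M (y * v * st y) = y * SS M v * st y := by
  classical
  let o : Matrix (I2 d) (I2 d) ℂ := Matrix.of fun L K => cf M st tr K.1 (y * M L.1 * st y)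
  have hB : ∀ L : I2 d, y * M L.1 * st y = ∑ K : I2 d, o L K • M K.1 := fun L =>
    expand2 h ht (hy2 _ (Submodule.subset_span ⟨L.1, L.2, rfl⟩))
  have htr : ∀ L L' : I2 d, tr (M L.1 * M L'.1) = if L = L' then -1 else 0 := by
    intro L L'
    have h1 : M L.1 = - st (M L.1) := by rw [two_st h L.1 L.2, neg_neg]
    rw [h1, neg_mul, map_neg]
    have h2 := cf_M h ht L.1 L'.1
    rw [cf_apply] at h2
    rw [h2]
    by_cases e : L = L'
    · rw [if_pos (congrArg Subtype.val e), if_pos e]
    · rw [if_neg (fun e' => e (Subtype.ext e')), if_neg e, neg_zero]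
  have ho : o * o.transpose = 1 := by
    ext L L'
    have h1 : tr ((y * M L.1 * st y) * (y * M L'.1 * st y)) = tr (M L.1 * M L'.1) := by
      have h2 : (y * M L.1 * st y) * (y * M L'.1 * st y) = y * (M L.1 * M L'.1 * st y) := by
        calc _ = y * M L.1 * (st y * y) * (M L'.1 * st y) := by simp only [mul_assoc]
          _ = _ := by rw [hy, mul_one]; simp only [mul_assoc]
      rw [h2, ht.2, mul_assoc, hy, mul_one]
    rw [hB L, hB L', Finset.sum_mul_sum] at h1
    simp only [map_sum, smul_mul_smul_comm, map_smul, htr, smul_eq_mul, mul_ite, mul_neg, mul_one,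
      mul_zero, Finset.sum_ite_eq, Finset.mem_univ, if_true, Finset.sum_neg_distrib] at h1
    rw [Matrix.mul_apply, Matrix.one_apply]
    simp only [Matrix.transpose_apply]
    rw [← neg_inj, h1]
    split_ifs <;> simp
  have ho' : o.transpose * o = 1 := mul_eq_one_comm.1 ho
  have key : ∀ n : C, ∑ L : I2 d, (y * M L.1 * st y) * n * (y * M L.1 * st y) = SS M n := by
    intro n
    have e1 : ∀ L : I2 d, (y * M L.1 * st y) * n * (y * M L.1 * st y) =
        ∑ K : I2 d, ∑ K' : I2 d, (o L K * o L K') • (M K.1 * n * M K'.1) := by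
      intro L
      rw [hB L, Finset.sum_mul, Finset.sum_mul_sum]
      refine Finset.sum_congr rfl fun K _ => Finset.sum_congr rfl fun K' _ => ?_
      rw [smul_mul_assoc, smul_mul_smul_comm]
    rw [Finset.sum_congr rfl fun L _ => e1 L, Finset.sum_comm]
    unfold SS
    refine Finset.sum_congr rfl fun K _ => ?_
    rw [Finset.sum_comm, Finset.sum_eq_single K]
    · rw [← Finset.sum_smul]
      have h1 : ∑ L : I2 d, o L K * o L K = 1 := by
        have h2 := congrFun (congrFun ho' K) K
        rw [Matrix.mul_apply, Matrix.one_apply_eq] at h2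
        simpa only [Matrix.transpose_apply] using h2
      rw [h1, one_smul]
    · intro K' _ hK'
      rw [← Finset.sum_smul]
      have h1 : ∑ L : I2 d, o L K * o L K' = 0 := by
        have h2 := congrFun (congrFun ho' K) K'
        rw [Matrix.mul_apply, Matrix.one_apply_ne hK'.symm] at h2
        simpa only [Matrix.transpose_apply] using h2
      rw [h1, zero_smul]
    · intro hK
      exact absurd (Finset.mem_univ _) hK
  rw [← key]
  unfold SS
  rw [Finset.mul_sum, Finset.sum_mul]
  refine Finset.sum_congr rfl fun L _ => ?_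
  calc y * M L.1 * st y * (y * v * st y) * (y * M L.1 * st y) =
      y * M L.1 * (st y * y) * v * (st y * y) * (M L.1 * st y) := by simp only [mul_assoc]
    _ = _ := by rw [hy]; simp only [mul_one, mul_assoc]

/-- the eigenvalue -/
noncomputable def wt (K : Finset (Fin d)) : ℂ := ∑ L : I2 d, (-1 : ℂ) ^ (L.1 ∩ K).card

theorem SS_M (h : FullCl M st) (K : Finset (Fin d)) : SS M (M K) = -(wt K • M K) := by
  unfold SS wt
  rw [Finset.sum_smul, ← Finset.sum_neg_distrib]
  refine Finset.sum_congr rfl fun L _ => ?_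
  rw [h.comm L.1 K, smul_mul_assoc, mul_assoc, two_sq h L.1 L.2, mul_neg, mul_one, smul_neg, L.2,
    pow_add, pow_mul]
  norm_num

theorem cf_SS (h : FullCl M st) (ht : IsTrF M tr) (x : C) (K : Finset (Fin d)) :
    cf M st tr K (SS M x) = -(wt K * cf M st tr K x) := by
  have hlin : SS M x = ∑ K', cf M st tr K' x • SS M (M K') := by
    have h1 := expand h ht x
    unfold SS
    conv_lhs => rw [h1]
    simp only [Finset.mul_sum, Finset.sum_mul, mul_smul_comm, smul_mul_assoc, Finset.smul_sum]
    rw [Finset.sum_comm]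
  rw [hlin, map_sum, Finset.sum_eq_single K]
  · rw [map_smul, SS_M h, map_neg, map_smul, cf_M h ht, if_pos rfl, smul_eq_mul, smul_eq_mul]
    ring
  · intro L _ hL
    rw [map_smul, SS_M h, map_neg, map_smul, cf_M h ht, if_neg (Ne.symm hL)]
    simp
  · intro hK
    exact absurd (Finset.mem_univ _) hK

theorem count (K : Finset (Fin d)) :
    (Finset.univ.filter fun L : I2 d => Odd (L.1 ∩ K).card).card = K.card * Kᶜ.card := by
  classical
  symm
  rw [← Finset.card_product]
  have hne : ∀ p ∈ K ×ˢ Kᶜ, p.1 ≠ p.2 := fun p hp e =>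
    (Finset.mem_compl.1 (Finset.mem_product.1 hp).2) (e ▸ (Finset.mem_product.1 hp).1)
  have hint : ∀ p ∈ K ×ˢ Kᶜ, ({p.1, p.2} : Finset (Fin d)) ∩ K = {p.1} := by
    intro p hp
    have h1 := (Finset.mem_product.1 hp).1
    have h2 := Finset.mem_compl.1 (Finset.mem_product.1 hp).2
    ext x
    simp only [Finset.mem_inter, Finset.mem_insert, Finset.mem_singleton]
    constructor
    · rintro ⟨rfl | rfl, hx⟩
      · rfl
      · exact absurd hx h2
    · rintro rfl
      exact ⟨Or.inl rfl, h1⟩
  refine Finset.card_bij (fun p hp => (⟨{p.1, p.2}, Finset.card_pair (hne p hp)⟩ : I2 d)) ?_ ?_ ?_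
  · intro p hp
    rw [Finset.mem_filter]
    refine ⟨Finset.mem_univ _, ?_⟩
    show Odd (({p.1, p.2} : Finset (Fin d)) ∩ K).card
    rw [hint p hp, Finset.card_singleton]
    exact odd_one
  · intro p hp q hq e
    have e' : ({p.1, p.2} : Finset (Fin d)) = {q.1, q.2} := congrArg Subtype.val e
    have h1 : p.1 = q.1 := by
      have h2 := hint p hp
      rw [e', hint q hq] at h2
      exact (Finset.singleton_inj.1 h2).symm
    have h3 : p.2 ∈ ({q.1, q.2} : Finset (Fin d)) := by
      rw [← e']
      simp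
    rcases Finset.mem_insert.1 h3 with h4 | h4
    · exact absurd (h1.trans h4.symm) (hne p hp)
    · exact Prod.ext h1 (Finset.mem_singleton.1 h4)
  · intro L hL
    have h1 := (Finset.mem_filter.1 hL).2
    have h2 := Finset.card_sdiff_add_card_inter L.1 K
    rw [L.2] at h2
    have h3 : (L.1 ∩ K).card = 1 := by
      obtain ⟨t, ht⟩ := h1
      omega
    have h4 : (L.1 \ K).card = 1 := by omega
    obtain ⟨i, hi⟩ := Finset.card_eq_one.1 h3
    obtain ⟨j, hj⟩ := Finset.card_eq_one.1 h4
    have hiK : i ∈ L.1 ∩ K := by rw [hi]; exact Finset.mem_singleton_self _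
    have hjK : j ∈ L.1 \ K := by rw [hj]; exact Finset.mem_singleton_self _
    rw [Finset.mem_inter] at hiK
    rw [Finset.mem_sdiff] at hjK
    refine ⟨(i, j), Finset.mem_product.2 ⟨hiK.2, Finset.mem_compl.2 hjK.2⟩, Subtype.ext ?_⟩
    show ({i, j} : Finset (Fin d)) = L.1
    have hij : i ≠ j := fun e => hjK.2 (e ▸ hiK.2)
    refine Finset.eq_of_subset_of_card_le ?_ ?_
    · intro x hx
      rcases Finset.mem_insert.1 hx with rfl | hx
      · exact hiK.1
      · rw [Finset.mem_singleton.1 hx]
        exact hjK.1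
    · rw [L.2, Finset.card_pair hij]

theorem wt_eq (K : Finset (Fin d)) :
    wt K = (Fintype.card (I2 d) : ℂ) - 2 * ((K.card * Kᶜ.card : ℕ) : ℂ) := by
  classical
  have h1 : ∀ L : I2 d, (-1 : ℂ) ^ (L.1 ∩ K).card =
      1 - 2 * (if Odd (L.1 ∩ K).card then 1 else 0) := by
    intro L
    rcases Nat.even_or_odd (L.1 ∩ K).card with h | h
    · rw [h.neg_one_pow, if_neg (Nat.not_odd_iff_even.2 h)]
      norm_num
    · rw [h.neg_one_pow, if_pos h]
      norm_num
  unfold wt
  rw [Finset.sum_congr rfl fun L _ => h1 L, Finset.sum_sub_distrib, ← Finset.mul_sum,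
    Finset.sum_boole, count]
  simp

theorem n_mem (h : FullCl M st) (ht : IsTrF M tr) (y : C) (hy : st y * y = 1)
    (hy2 : ∀ x ∈ Lev M 2, y * x * st y ∈ Lev M 2) (i : Fin d) :
    y * M {i} * st y ∈ FF M (fun k => k = 1 ∨ k = d - 1) := by
  refine mem_FF h ht fun K hK => ?_
  push Not at hK
  by_contra hne
  have h1 := SS_conj h ht y hy hy2 (M {i})
  rw [SS_M h] at h1
  have h2 : SS M (y * M {i} * st y) = -(wt {i} • (y * M {i} * st y)) := by
    rw [h1, mul_neg, neg_mul, mul_smul_comm, smul_mul_assoc]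
  have h3 := cf_SS h ht (y * M {i} * st y) K
  rw [h2, map_neg, map_smul, smul_eq_mul, neg_inj] at h3
  have h4 : wt ({i} : Finset (Fin d)) = wt K := mul_right_cancel₀ hne h3
  rw [wt_eq, wt_eq] at h4
  have h5 : ((({i} : Finset (Fin d)).card * ({i} : Finset (Fin d))ᶜ.card : ℕ) : ℂ) =
      ((K.card * Kᶜ.card : ℕ) : ℂ) := by linear_combination (-1 / 2) * h4
  have h6 : ({i} : Finset (Fin d)).card * ({i} : Finset (Fin d))ᶜ.card = K.card * Kᶜ.card := by
    exact_mod_cast h5
  have h7 : ({i} : Finset (Fin d)).card + ({i} : Finset (Fin d))ᶜ.card = d := by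
    rw [Finset.card_add_card_compl, Fintype.card_fin]
  have h8 : K.card + Kᶜ.card = d := by rw [Finset.card_add_card_compl, Fintype.card_fin]
  rw [Finset.card_singleton] at h6 h7
  have h9 : ((K.card : ℤ) - 1) * ((Kᶜ.card : ℤ) - 1) = 0 := by
    have e1 : ((({i} : Finset (Fin d))ᶜ.card : ℕ) : ℤ) = K.card * Kᶜ.card := by
      rw [one_mul] at h6
      exact_mod_cast h6
    have e2 : (1 : ℤ) + ((({i} : Finset (Fin d))ᶜ.card : ℕ) : ℤ) = d := by exact_mod_cast h7
    have e3 : (K.card : ℤ) + (Kᶜ.card : ℤ) = d := by exact_mod_cast h8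
    linear_combination (-1) * e1 + e2 - e3
  rcases mul_eq_zero.1 h9 with h10 | h10
  · exact hK.1 (by omega)
  · exact hK.2 (by omega)

/-! ### vectors -/

theorem om_st (h : FullCl M st) : st (M Finset.univ) = -M Finset.univ := by
  rw [h.st_M, Finset.card_univ, Fintype.card_fin]
  have hd := h.dim
  obtain ⟨t, ht⟩ : ∃ t, d = 4 * t + 2 := ⟨d / 4, by omega⟩
  have h1 : d * (d - 1) / 2 = (2 * t + 1) * (4 * t + 1) := by
    have e : d - 1 = 4 * t + 1 := by omega
    rw [e, ht, show (4 * t + 2) * (4 * t + 1) = 2 * ((2 * t + 1) * (4 * t + 1)) by ring]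
    exact Nat.mul_div_cancel_left _ (by norm_num)
  have h2 : Odd (d * (d - 1) / 2) := by
    rw [h1]
    exact Odd.mul ⟨t, rfl⟩ ⟨2 * t, by ring⟩
  rw [h2.neg_one_pow, neg_smul, one_smul]

theorem om_sq (h : FullCl M st) : M Finset.univ * M Finset.univ = -1 := by
  have h1 := h.st_inv Finset.univ
  rw [om_st h, neg_mul] at h1
  rw [← h1, neg_neg]

theorem om_vec (h : FullCl M st) {v : C} (hv : v ∈ Lev M 1) :
    v * M Finset.univ = -(M Finset.univ * v) := by
  unfold Lev at hv
  induction hv using Submodule.span_induction with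
  | mem v hv =>
    obtain ⟨K, hK, rfl⟩ := hv
    have hd : Even d := ⟨d / 2, by have := h.dim; omega⟩
    rw [h.comm K Finset.univ, Finset.inter_univ, hK, Finset.card_univ, Fintype.card_fin, one_mul,
      pow_add, hd.neg_one_pow, one_mul, pow_one, neg_smul, one_smul]
  | zero => simp
  | add x y _ _ hx hy => rw [add_mul, mul_add, hx, hy, neg_add]
  | smul a x _ hx => rw [smul_mul_assoc, mul_smul_comm, hx, smul_neg]

theorem lev_iff {v : C} (k : ℕ) : v ∈ Lev M k ↔ v ∈ FF M (fun j => j = k) := Iff.rfl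

theorem vec_mul (h : FullCl M st) {u v : C} (hu : u ∈ Lev M 1) (hv : v ∈ Lev M 1) :
    u * v ∈ FF M (fun k => k = 0 ∨ k = 2) := by
  unfold Lev at hu hv
  induction hu using Submodule.span_induction with
  | zero => rw [zero_mul]; exact Submodule.zero_mem _
  | add x y _ _ hx hy => rw [add_mul]; exact Submodule.add_mem _ hx hy
  | smul a x _ hx => rw [smul_mul_assoc]; exact Submodule.smul_mem _ _ hx
  | mem u hu =>
    obtain ⟨K, hK, rfl⟩ := hu
    induction hv using Submodule.span_induction with
    | zero => rw [mul_zero]; exact Submodule.zero_mem _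
    | add x y _ _ hx hy => rw [mul_add]; exact Submodule.add_mem _ hx hy
    | smul a x _ hx => rw [mul_smul_comm]; exact Submodule.smul_mem _ _ hx
    | mem v hv =>
      obtain ⟨L, hL, rfl⟩ := hv
      obtain ⟨ε, -, hε⟩ := h.mul K L
      rw [hε]
      refine Submodule.smul_mem _ _ (FF_M _ ?_)
      have h1 : (K ∆ L).card + 2 * (K ∩ L).card = K.card + L.card := by
        have h1 : (K ∆ L).card = (K \ L).card + (L \ K).card := by
          rw [Finset.symmDiff_def]
          exact Finset.card_union_of_disjoint disjoint_sdiff_sdiff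
        have h2 := Finset.card_sdiff_add_card_inter K L
        have h3 := Finset.card_sdiff_add_card_inter L K
        rw [Finset.inter_comm] at h3
        omega
      omega

theorem vec_anti (h : FullCl M st) {u v : C} (hu : u ∈ Lev M 1) (hv : v ∈ Lev M 1) :
    ∃ s : ℂ, u * v + v * u = s • (1 : C) := by
  have key : u * v + v * u ∈ Submodule.span ℂ {(1 : C)} := by
    unfold Lev at hu hv
    induction hu using Submodule.span_induction with
    | zero => rw [zero_mul, mul_zero, add_zero]; exact Submodule.zero_mem _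
    | add x y _ _ hx hy =>
      have e : (x + y) * v + v * (x + y) = (x * v + v * x) + (y * v + v * y) := by
        rw [add_mul, mul_add]; abel
      rw [e]
      exact Submodule.add_mem _ hx hy
    | smul a x _ hx =>
      rw [smul_mul_assoc, mul_smul_comm, ← smul_add]
      exact Submodule.smul_mem _ _ hx
    | mem u hu =>
      obtain ⟨K, hK, rfl⟩ := hu
      induction hv using Submodule.span_induction with
      | zero => rw [zero_mul, mul_zero, add_zero]; exact Submodule.zero_mem _
      | add x y _ _ hx hy =>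
        have e : M K * (x + y) + (x + y) * M K = (M K * x + x * M K) + (M K * y + y * M K) := by
          rw [add_mul, mul_add]; abel
        rw [e]
        exact Submodule.add_mem _ hx hy
      | smul a x _ hx =>
        rw [smul_mul_assoc, mul_smul_comm, ← smul_add]
        exact Submodule.smul_mem _ _ hx
      | mem v hv =>
        obtain ⟨L, hL, rfl⟩ := hv
        by_cases hKL : K = L
        · subst hKL
          obtain ⟨ε, -, h3⟩ := h.mul K K
          rw [h3, symmDiff_self, Finset.bot_eq_empty, h.one, ← add_smul]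
          exact Submodule.smul_mem _ _ (Submodule.mem_span_singleton_self _)
        · have hcm := h.comm K L
          obtain ⟨i, rfl⟩ := Finset.card_eq_one.1 hK
          obtain ⟨j, rfl⟩ := Finset.card_eq_one.1 hL
          have hij : i ≠ j := fun e => hKL (by rw [e])
          have h0 : ({i} : Finset (Fin d)) ∩ {j} = ∅ := by
            rw [Finset.singleton_inter_of_notMem]
            simpa using hij
          rw [h0, Finset.card_singleton, Finset.card_singleton, Finset.card_empty] at hcm
          rw [hcm]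
          simp
  obtain ⟨s, hs⟩ := Submodule.mem_span_singleton.1 key
  exact ⟨s, hs.symm⟩

theorem om_FF (h : FullCl M st) {S S' : ℕ → Prop} (hS : ∀ k, k ≤ d → S k → S' (d - k)) {x : C}
    (hx : x ∈ FF M S) : M Finset.univ * x ∈ FF M S' := by
  unfold FF at hx
  induction hx using Submodule.span_induction with
  | zero => rw [mul_zero]; exact Submodule.zero_mem _
  | add x y _ _ hx hy => rw [mul_add]; exact Submodule.add_mem _ hx hy
  | smul a x _ hx => rw [mul_smul_comm]; exact Submodule.smul_mem _ _ hx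
  | mem x hx =>
    obtain ⟨K, hK, rfl⟩ := hx
    obtain ⟨ε, -, hε⟩ := h.mul Finset.univ K
    rw [hε]
    refine Submodule.smul_mem _ _ (FF_M _ ?_)
    have h1 : (Finset.univ : Finset (Fin d)) ∆ K = Kᶜ := by
      ext x
      simp [Finset.mem_symmDiff]
    rw [h1, Finset.card_compl, Fintype.card_fin]
    refine hS _ ?_ hK
    have h2 := Finset.card_le_univ K
    rwa [Fintype.card_fin] at h2

theorem split1 {x : C} (hn : x ∈ FF M (fun k => k = 1 ∨ k = d - 1)) :
    ∃ P R : C, P ∈ Lev M 1 ∧ R ∈ Lev M (d - 1) ∧ x = P + R := by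
  unfold FF at hn
  induction hn using Submodule.span_induction with
  | zero => exact ⟨0, 0, Submodule.zero_mem _, Submodule.zero_mem _, by simp⟩
  | add x z _ _ hx hz =>
    obtain ⟨P, R, hP, hR, e⟩ := hx
    obtain ⟨P', R', hP', hR', e'⟩ := hz
    exact ⟨P + P', R + R', Submodule.add_mem _ hP hP', Submodule.add_mem _ hR hR', by
      rw [e, e']; abel⟩
  | smul a x _ hx =>
    obtain ⟨P, R, hP, hR, e⟩ := hx
    exact ⟨a • P, a • R, Submodule.smul_mem _ _ hP, Submodule.smul_mem _ _ hR, by
      rw [e, smul_add]⟩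
  | mem x hx =>
    obtain ⟨K, hK, rfl⟩ := hx
    rcases hK with hK | hK
    · exact ⟨M K, 0, Submodule.subset_span ⟨K, hK, rfl⟩, Submodule.zero_mem _, by simp⟩
    · exact ⟨0, M K, Submodule.zero_mem _, Submodule.subset_span ⟨K, hK, rfl⟩, by simp⟩

/-- the theorem, given the trace -/
theorem t_VEC2 (hF : S_FTR.{u}) : S_VEC2.{u} := by
  classical
  intro C _ _ d M st y h hd6 hye hy hy' hy2 hy3
  obtain ⟨-, tr, ht⟩ := hF M st h
  set ω : C := M Finset.univ with hω
  have hω2 : ω * ω = -1 := om_sq h
  have hdec : ∀ i : Fin d, ∃ P Q : C, P ∈ Lev M 1 ∧ Q ∈ Lev M 1 ∧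
      y * M {i} * st y = P + ω * Q := by
    intro i
    have hn := n_mem h ht y hy hy2 i
    have h1 := split1 hn
    obtain ⟨P, R, hP, hR, e⟩ := h1
    refine ⟨P, -(ω * R), hP, ?_, ?_⟩
    · refine Submodule.neg_mem _ ((lev_iff 1).2 (om_FF h ?_ ((lev_iff (d - 1)).1 hR)))
      intro k hk hk'
      omega
    · rw [e, mul_neg, ← mul_assoc, hω2, neg_mul, one_mul, neg_neg]
  choose P Q hP hQ hn using hdec
  -- products
  have hprod : ∀ i j : Fin d, (y * M {i} * st y) * (y * M {j} * st y) =
      (P i * P j + Q i * Q j) + ω * (Q i * P j - P i * Q j) := by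
    intro i j
    have e1 := om_vec h (hP i)
    have e2 := om_vec h (hQ i)
    rw [hn i, hn j, add_mul, mul_add, mul_add]
    have e3 : P i * (ω * Q j) = -(ω * (P i * Q j)) := by
      rw [← mul_assoc, e1, neg_mul, mul_assoc]
    have e4 : ω * Q i * (ω * Q j) = Q i * Q j := by
      calc ω * Q i * (ω * Q j) = ω * (Q i * ω) * Q j := by simp only [mul_assoc]
        _ = Q i * Q j := by
          rw [e2]
          simp only [mul_neg, neg_mul, ← mul_assoc]
          rw [hω2, neg_mul, neg_mul, one_mul, neg_neg]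
    rw [e3, e4, mul_sub, mul_assoc]
    abel
  have hprod' : ∀ i j : Fin d, (y * M {i} * st y) * (y * M {j} * st y) =
      y * (M {i} * M {j}) * st y := by
    intro i j
    calc _ = y * M {i} * (st y * y) * (M {j} * st y) := by simp only [mul_assoc]
      _ = _ := by rw [hy, mul_one]; simp only [mul_assoc]
  have hsq1 : ∀ i : Fin d, M {i} * M {i} = (1 : C) := by
    intro i
    have h1 := h.st_inv {i}
    rw [h.st_M, Finset.card_singleton] at h1
    simpa using h1
  have hlev : ∀ i j : Fin d, (y * M {i} * st y) * (y * M {j} * st y) ∈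
      FF M (fun k => k = 0 ∨ k = 2) := by
    intro i j
    rw [hprod']
    by_cases hij : i = j
    · subst hij
      rw [hsq1, mul_one, hy', ← h.one]
      exact FF_M _ (Or.inl Finset.card_empty)
    · have h1 : M {i} * M {j} ∈ Lev M 2 := by
        obtain ⟨ε, -, hε⟩ := h.mul {i} {j}
        rw [hε]
        refine Submodule.smul_mem _ _ (Submodule.subset_span ⟨_, ?_, rfl⟩)
        have h0 : ({i} : Finset (Fin d)) ∆ {j} = {i, j} := by
          ext x
          simp only [Finset.mem_symmDiff, Finset.mem_singleton, Finset.mem_insert]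
          constructor
          · rintro (⟨a, -⟩ | ⟨a, -⟩)
            · exact Or.inl a
            · exact Or.inr a
          · rintro (rfl | rfl)
            · exact Or.inl ⟨rfl, hij⟩
            · exact Or.inr ⟨rfl, fun e => hij e.symm⟩
        rw [h0, Finset.card_pair hij]
      have h2 := hy2 _ h1
      refine Submodule.span_mono ?_ h2
      rintro _ ⟨K, hK, rfl⟩
      exact ⟨K, Or.inr hK, rfl⟩
  have hstar : ∀ i j : Fin d, Q i * P j = P i * Q j := by
    intro i j
    have h1 : Q i * P j - P i * Q j ∈ FF M (fun k => k = 0 ∨ k = 2) :=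
      Submodule.sub_mem _ (vec_mul h (hQ i) (hP j)) (vec_mul h (hP i) (hQ j))
    have h2 : ω * (Q i * P j - P i * Q j) ∈ FF M (fun k => k = d ∨ k = d - 2) := by
      refine om_FF h ?_ h1
      intro k hk hk'
      omega
    have h3 : ω * (Q i * P j - P i * Q j) ∈ FF M (fun k => k = 0 ∨ k = 2) := by
      have h4 : ω * (Q i * P j - P i * Q j) = (y * M {i} * st y) * (y * M {j} * st y) -
          (P i * P j + Q i * Q j) := by
        rw [hprod i j]; abel
      rw [h4]
      exact Submodule.sub_mem _ (hlev i j)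
        (Submodule.add_mem _ (vec_mul h (hP i) (hP j)) (vec_mul h (hQ i) (hQ j)))
    have h5 : ω * (Q i * P j - P i * Q j) = 0 :=
      FF_disj h ht (fun k a b => by omega) h2 h3
    have h6 : ω * (ω * (Q i * P j - P i * Q j)) = 0 := by rw [h5, mul_zero]
    rw [← mul_assoc, hω2, neg_mul, one_mul, neg_eq_zero] at h6
    exact sub_eq_zero.1 h6
  -- scalars
  have inj1 : ∀ a b : ℂ, a • (1 : C) = b • (1 : C) → a = b := by
    intro a b hab
    by_contra hne
    have h1 : (a - b) • (1 : C) = 0 := by rw [sub_smul, hab, sub_self]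
    rcases smul_eq_zero.1 h1 with h2 | h2
    · exact hne (sub_eq_zero.1 h2)
    · exact h.ne h2
  have half : ∀ (x : C) (s : ℂ), x + x = s • (1 : C) → x = (s / 2) • (1 : C) := by
    intro x s hx
    rw [← two_smul ℂ x] at hx
    have h1 := congrArg (fun z : C => (1 / 2 : ℂ) • z) hx
    simp only [smul_smul] at h1
    rw [show (1 / 2 : ℂ) * 2 = 1 by norm_num, one_smul] at h1
    rw [h1]
    congr 1
    ring
  let j0 : Fin d := ⟨0, by omega⟩
  have hcomm := hstar j0 j0
  obtain ⟨s2, hs2⟩ := vec_anti h (hP j0) (hP j0)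
  obtain ⟨q2, hq2⟩ := vec_anti h (hQ j0) (hQ j0)
  obtain ⟨r2, hr2⟩ := vec_anti h (hP j0) (hQ j0)
  rw [hcomm] at hr2
  have hs := half _ _ hs2
  have hq := half _ _ hq2
  have hr := half _ _ hr2
  set s : ℂ := s2 / 2
  set q : ℂ := q2 / 2
  set r : ℂ := r2 / 2
  have hr' : Q j0 * P j0 = r • (1 : C) := by rw [hcomm, hr]
  have hsq : s + q = 1 := by
    have h1 := hprod j0 j0
    rw [hprod', hsq1, mul_one, hy', hcomm, sub_self, mul_zero, add_zero, hs, hq, ← add_smul] at h1
    have h2 : (1 : ℂ) • (1 : C) = (s + q) • (1 : C) := by rw [one_smul]; exact h1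
    exact (inj1 _ _ h2).symm
  have hrr : r * r = s * q := by
    have h1 : (P j0 * Q j0) * (Q j0 * P j0) = (q * s) • (1 : C) := by
      calc (P j0 * Q j0) * (Q j0 * P j0) = P j0 * (Q j0 * Q j0) * P j0 := by simp only [mul_assoc]
        _ = (q * s) • (1 : C) := by
          rw [hq, mul_smul_comm, mul_one, smul_mul_assoc, hs, smul_smul]
    rw [hr, hr', smul_mul_smul_comm, mul_one] at h1
    rw [inj1 _ _ h1, mul_comm]
  have hA : ∀ i, s • Q i = r • P i := by
    intro i
    have h1 := congrArg (fun z : C => z * P j0) (hstar i j0)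
    simp only [mul_assoc] at h1
    rw [hs, hr', mul_smul_comm, mul_smul_comm, mul_one, mul_one] at h1
    exact h1
  have hB : ∀ i, r • Q i = q • P i := by
    intro i
    have h1 := congrArg (fun z : C => z * Q j0) (hstar i j0)
    simp only [mul_assoc] at h1
    rw [hr, hq, mul_smul_comm, mul_smul_comm, mul_one, mul_one] at h1
    exact h1
  obtain ⟨a, c, ha, hc, hac⟩ : ∃ a c : ℂ, a * a = s ∧ c * c = q ∧ a * c = r := by
    obtain ⟨a, ha⟩ := IsAlgClosed.exists_pow_nat_eq s (n := 2) (by norm_num)
    obtain ⟨c, hc⟩ := IsAlgClosed.exists_pow_nat_eq q (n := 2) (by norm_num)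
    have h1 : (a * c - r) * (a * c + r) = 0 := by
      have : a ^ 2 * c ^ 2 = r * r := by rw [ha, hc, hrr]
      linear_combination this
    rcases mul_eq_zero.1 h1 with h2 | h2
    · exact ⟨a, c, by rw [← ha]; ring, by rw [← hc]; ring, sub_eq_zero.1 h2⟩
    · refine ⟨a, -c, by rw [← ha]; ring, by rw [← hc]; ring, ?_⟩
      linear_combination -h2
  have hvec : ∀ v ∈ Lev M 1, ∃ v' ∈ Lev M 1, y * v * st y = (a • (1 : C) + c • ω) * v' := by
    intro v hv
    unfold Lev at hv
    induction hv using Submodule.span_induction with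
    | zero => exact ⟨0, Submodule.zero_mem _, by simp⟩
    | add x z _ _ hx hz =>
      obtain ⟨x', hx', ex⟩ := hx
      obtain ⟨z', hz', ez⟩ := hz
      exact ⟨x' + z', Submodule.add_mem _ hx' hz', by rw [mul_add, add_mul, ex, ez, mul_add]⟩
    | smul b x _ hx =>
      obtain ⟨x', hx', ex⟩ := hx
      exact ⟨b • x', Submodule.smul_mem _ _ hx', by
        rw [mul_smul_comm, smul_mul_assoc, ex, mul_smul_comm]⟩
    | mem x hx =>
      obtain ⟨K, hK, rfl⟩ := hx
      obtain ⟨i, rfl⟩ := Finset.card_eq_one.1 hK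
      refine ⟨a • P i + c • Q i, Submodule.add_mem _ (Submodule.smul_mem _ _ (hP i))
        (Submodule.smul_mem _ _ (hQ i)), ?_⟩
      have e1 : a • (a • P i + c • Q i) = P i := by
        rw [smul_add, smul_smul, smul_smul, ha, hac, hB i, ← add_smul, hsq, one_smul]
      have e2 : c • (a • P i + c • Q i) = Q i := by
        rw [smul_add, smul_smul, smul_smul, hc, mul_comm c a, hac, ← hA i, ← add_smul, hsq,
          one_smul]
      rw [hn i, add_mul, smul_mul_assoc, smul_mul_assoc, one_mul, e1, ← mul_smul_comm, e2]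
  -- the square root
  obtain ⟨a', c', h1', h2', h3'⟩ : ∃ a' c' : ℂ, a' * a' - c' * c' = a ∧ 2 * (a' * c') = c ∧
      a' * a' + c' * c' = 1 := by
    obtain ⟨x, hx⟩ := IsAlgClosed.exists_pow_nat_eq ((1 + a) / 2) (n := 2) (by norm_num)
    obtain ⟨z, hz⟩ := IsAlgClosed.exists_pow_nat_eq ((1 - a) / 2) (n := 2) (by norm_num)
    have hac1 : a * a + c * c = 1 := by rw [ha, hc, hsq]
    have h1 : (2 * (x * z) - c) * (2 * (x * z) + c) = 0 := by
      have : 4 * (x ^ 2 * z ^ 2) = c * c := by
        rw [hx, hz]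
        linear_combination -hac1
      linear_combination this
    rcases mul_eq_zero.1 h1 with h2 | h2
    · exact ⟨x, z, by linear_combination hx - hz, sub_eq_zero.1 h2, by
        linear_combination hx + hz⟩
    · exact ⟨x, -z, by linear_combination hx - hz, by linear_combination -h2, by
        linear_combination hx + hz⟩
  have hstξ : st (a' • (1 : C) + c' • ω) = a' • (1 : C) - c' • ω := by
    have hst1 : st (1 : C) = 1 := by
      have h4 := h.st_M ∅
      rw [h.one, Finset.card_empty] at h4
      simpa using h4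
    rw [map_add, map_smul, map_smul, hst1, hω, om_st h, smul_neg, sub_eq_add_neg]
  have hmulξ : ∀ a1 c1 a2 c2 : ℂ, (a1 • (1 : C) + c1 • ω) * (a2 • (1 : C) + c2 • ω) =
      (a1 * a2 - c1 * c2) • (1 : C) + (a1 * c2 + c1 * a2) • ω := by
    intro a1 c1 a2 c2
    rw [add_mul, mul_add, mul_add, smul_mul_smul_comm, smul_mul_smul_comm, smul_mul_smul_comm,
      smul_mul_smul_comm, hω2, one_mul, one_mul, mul_one, smul_neg, sub_smul, add_smul]
    abel
  have hst' : a' • (1 : C) - c' • ω = a' • (1 : C) + (-c') • ω := by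
    rw [neg_smul, sub_eq_add_neg]
  have hleft : (a' • (1 : C) - c' • ω) * (a' • (1 : C) + c' • ω) = 1 := by
    rw [hst', hmulξ]
    have e1 : a' * a' - -c' * c' = 1 := by linear_combination h3'
    have e2 : a' * c' + -c' * a' = 0 := by ring
    rw [e1, e2, one_smul, zero_smul, add_zero]
  have hright : (a' • (1 : C) + c' • ω) * (a' • (1 : C) - c' • ω) = 1 := by
    rw [hst', hmulξ]
    have e1 : a' * a' - c' * -c' = 1 := by linear_combination h3'
    have e2 : a' * -c' + c' * a' = 0 := by ring
    rw [e1, e2, one_smul, zero_smul, add_zero]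
  have hξξ : (a' • (1 : C) + c' • ω) * (a' • (1 : C) + c' • ω) = a • (1 : C) + c • ω := by
    rw [hmulξ]
    have e1 : a' * a' - c' * c' = a := h1'
    have e2 : a' * c' + c' * a' = c := by linear_combination h2'
    rw [e1, e2]
  refine ⟨a', c', a' • (1 : C) + c' • ω, rfl, ?_, ?_, ?_⟩
  · rw [hstξ]; exact hleft
  · rw [hstξ]; exact hright
  · intro v hv
    obtain ⟨v', hv', e⟩ := hvec v hv
    have e0 : st (st (a' • (1 : C) + c' • ω) * y) = st y * (a' • (1 : C) + c' • ω) := by
      rw [h.st_mul, h.st_st]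
    have hvξ : v' * (a' • (1 : C) + c' • ω) = (a' • (1 : C) - c' • ω) * v' := by
      rw [mul_add, sub_mul, mul_smul_comm, mul_smul_comm, smul_mul_assoc, smul_mul_assoc, mul_one,
        one_mul, hω, om_vec h hv', smul_neg, sub_eq_add_neg]
    have key : st (a' • (1 : C) + c' • ω) * y * v * st (st (a' • (1 : C) + c' • ω) * y) = v' := by
      rw [e0, hstξ]
      calc (a' • (1 : C) - c' • ω) * y * v * (st y * (a' • (1 : C) + c' • ω)) =
          (a' • (1 : C) - c' • ω) * (y * v * st y) * (a' • (1 : C) + c' • ω) := by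
            simp only [mul_assoc]
        _ = (a' • (1 : C) - c' • ω) * ((a' • (1 : C) + c' • ω) * (a' • (1 : C) + c' • ω)) *
            (v' * (a' • (1 : C) + c' • ω)) := by rw [e, hξξ]; simp only [mul_assoc]
        _ = ((a' • (1 : C) - c' • ω) * (a' • (1 : C) + c' • ω)) *
            ((a' • (1 : C) + c' • ω) * (a' • (1 : C) - c' • ω)) * v' := by
            rw [hvξ]; simp only [mul_assoc]
        _ = v' := by rw [hleft, hright, one_mul, one_mul]
    rw [key]
    exact hv'

end Pool.Agent.K1H69.SE
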